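import Mathlib

/-!
# A function of finite decay which is a divergence vanishes
-/

open scoped ContDiff
open MeasureTheory Complex Set

namespace Pool.Agent.H87.GWNil

/-- A nonnegative continuous function on the plane which is positive somewhere has integrals over
large squares bounded below. -/
theorem exists_lower {f : ℂ → ℝ} (hf : Continuous f) (h0 : ∀ z, 0 ≤ f z) {z₀ : ℂ}
    (hz : 0 < f z₀) : ∃ δ > 0, ∃ R₀ ≥ (1 : ℝ), ∀ R ≥ R₀,
      δ ≤ ∫ x : ℝ in (-R)..R, ∫ y : ℝ in (-R)..R, f (x + y * I) := by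
  have hc2 : Continuous fun p : ℝ × ℝ => f (p.1 + p.2 * I) := by fun_prop
  have hx : ∀ R : ℝ, Continuous fun x : ℝ => ∫ y : ℝ in (-R)..R, f (x + y * I) := fun R =>
    intervalIntegral.continuous_parametric_intervalIntegral_of_continuous' hc2 _ _
  have hy : ∀ x : ℝ, Continuous fun y : ℝ => f (x + y * I) := fun x => by fun_prop
  set R₀ : ℝ := 1 + |z₀.re| + |z₀.im| with hR₀
  have hR1 : 1 ≤ R₀ := by rw [hR₀]; linarith [abs_nonneg z₀.re, abs_nonneg z₀.im]
  have hre := abs_le.1 (show |z₀.re| ≤ R₀ by rw [hR₀]; linarith [abs_nonneg z₀.re, abs_nonneg z₀.im])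
  have him := abs_le.1 (show |z₀.im| ≤ R₀ by rw [hR₀]; linarith [abs_nonneg z₀.re, abs_nonneg z₀.im])
  have hpos : 0 < ∫ x : ℝ in (-R₀)..R₀, ∫ y : ℝ in (-R₀)..R₀, f (x + y * I) := by
    apply intervalIntegral.integral_pos (by linarith) (hx R₀).continuousOn
    · intro x _
      exact intervalIntegral.integral_nonneg (by linarith) fun y _ => h0 _
    · refine ⟨z₀.re, ⟨hre.1, hre.2⟩, ?_⟩
      apply intervalIntegral.integral_pos (by linarith) (hy _).continuousOn
      · intro y _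
        exact h0 _
      · refine ⟨z₀.im, ⟨him.1, him.2⟩, ?_⟩
        rw [re_add_im]
        exact hz
  refine ⟨_, hpos, R₀, hR1, fun R hR => ?_⟩
  calc ∫ x : ℝ in (-R₀)..R₀, ∫ y : ℝ in (-R₀)..R₀, f (x + y * I)
      ≤ ∫ x : ℝ in (-R₀)..R₀, ∫ y : ℝ in (-R)..R, f (x + y * I) := by
        apply intervalIntegral.integral_mono_on (by linarith) ((hx R₀).intervalIntegrable _ _)
          ((hx R).intervalIntegrable _ _)
        intro x _
        exact intervalIntegral.integral_mono_interval (by linarith) (by linarith) hR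
          (Filter.Eventually.of_forall fun y => h0 _) ((hy x).intervalIntegrable _ _)
    _ ≤ ∫ x : ℝ in (-R)..R, ∫ y : ℝ in (-R)..R, f (x + y * I) :=
        intervalIntegral.integral_mono_interval (by linarith) (by linarith) hR
          (Filter.Eventually.of_forall fun x =>
            intervalIntegral.integral_nonneg (by linarith) fun y _ => h0 _)
          ((hx R).intervalIntegrable _ _)

/-- If a nonnegative continuous function on the plane is the divergence of a field of decay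
`‖z‖⁻²` then it vanishes. -/
theorem energy_zero {f : ℂ → ℝ} (hf : Continuous f) (h0 : ∀ z, 0 ≤ f z) {F : ℂ → ℂ}
    (hF : ContDiff ℝ 1 F) (hd : ∀ z, (I • fderiv ℝ F z 1 - fderiv ℝ F z I).re = f z) {C : ℝ}
    (hC : ∀ z, 1 ≤ ‖z‖ → ‖F z‖ ≤ C / ‖z‖ ^ 2) (z : ℂ) : f z = 0 := by
  by_contra hne
  have hz : 0 < f z := lt_of_le_of_ne (h0 z) (Ne.symm hne)
  obtain ⟨δ, hδ, R₀, hR₀, hR⟩ := exists_lower hf h0 hz
  have hC0 : 0 ≤ C := by
    have := (norm_nonneg _).trans (hC 1 (by simp))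
    simpa using this
  set R : ℝ := R₀ + 8 * C / δ with hRdef
  have hRR : R₀ ≤ R := by
    rw [hRdef]
    have : 0 ≤ 8 * C / δ := by positivity
    linarith
  have hR1 : 1 ≤ R := hR₀.trans hRR
  have hRpos : 0 < R := by linarith
  have hlow := hR R hRR
  have hFc : Continuous F := hF.continuous
  have hFd : Differentiable ℝ F := hF.differentiable (by simp)
  have hF' : Continuous (fderiv ℝ F) := hF.continuous_fderiv (by simp)
  have hg : Continuous fun z => I • fderiv ℝ F z 1 - fderiv ℝ F z I := by fun_prop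
  have key := Complex.integral_boundary_rect_of_differentiableOn_real F (⟨-R, -R⟩ : ℂ) ⟨R, R⟩
    hFd.differentiableOn (hg.continuousOn.integrableOn_compact
      (isCompact_uIcc.reProdIm isCompact_uIcc))
  simp only at key
  -- the real part of the right hand side
  have hre : (∫ x : ℝ in (-R)..R, ∫ y : ℝ in (-R)..R,
      (I • fderiv ℝ F (x + y * I) 1 - fderiv ℝ F (x + y * I) I)).re
      = ∫ x : ℝ in (-R)..R, ∫ y : ℝ in (-R)..R, f (x + y * I) := by
    have hg2 : Continuous fun p : ℝ × ℝ =>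
        I • fderiv ℝ F (p.1 + p.2 * I) 1 - fderiv ℝ F (p.1 + p.2 * I) I := by
      have : Continuous fun p : ℝ × ℝ => ((p.1 : ℂ) + p.2 * I) := by fun_prop
      exact hg.comp this
    have hgx : Continuous fun x : ℝ => ∫ y : ℝ in (-R)..R,
        (I • fderiv ℝ F (x + y * I) 1 - fderiv ℝ F (x + y * I) I) :=
      intervalIntegral.continuous_parametric_intervalIntegral_of_continuous' hg2 _ _
    have e1 := Complex.reCLM.intervalIntegral_comp_comm (hgx.intervalIntegrable (μ := volume) (-R) R)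
    have e1' : (∫ x : ℝ in (-R)..R, ∫ y : ℝ in (-R)..R,
      (I • fderiv ℝ F (x + y * I) 1 - fderiv ℝ F (x + y * I) I)).re
      = ∫ x : ℝ in (-R)..R, (∫ y : ℝ in (-R)..R,
      (I • fderiv ℝ F (x + y * I) 1 - fderiv ℝ F (x + y * I) I)).re := e1.symm
    rw [e1']
    refine intervalIntegral.integral_congr fun x _ => ?_
    have hgy : Continuous fun y : ℝ =>
        (I • fderiv ℝ F (x + y * I) 1 - fderiv ℝ F (x + y * I) I) := by
      have : Continuous fun y : ℝ => ((x : ℂ) + y * I) := by fun_prop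
      exact hg.comp this
    have e2 := Complex.reCLM.intervalIntegral_comp_comm (hgy.intervalIntegrable (μ := volume) (-R) R)
    have e2' : (∫ y : ℝ in (-R)..R,
      (I • fderiv ℝ F (x + y * I) 1 - fderiv ℝ F (x + y * I) I)).re
      = ∫ y : ℝ in (-R)..R,
      (I • fderiv ℝ F (x + y * I) 1 - fderiv ℝ F (x + y * I) I).re := e2.symm
    show (∫ y : ℝ in (-R)..R,
      (I • fderiv ℝ F (x + y * I) 1 - fderiv ℝ F (x + y * I) I)).re = _
    rw [e2']
    exact intervalIntegral.integral_congr fun y _ => hd _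
  rw [← hre, ← key] at hlow
  -- the boundary terms
  have bound : ∀ g : ℝ → ℂ, (∀ x ∈ Set.uIcc (-R) R, ‖g x‖ ≤ C / R ^ 2) →
      ‖∫ x : ℝ in (-R)..R, g x‖ ≤ C / R ^ 2 * (2 * R) := by
    intro g hg'
    have := intervalIntegral.norm_integral_le_of_norm_le_const (a := -R) (b := R) (f := g)
      (C := C / R ^ 2) fun x hx => hg' x (Set.uIoc_subset_uIcc hx)
    have h2 : |R - -R| = 2 * R := by
      rw [abs_of_pos (by linarith)]; ring
    rwa [h2] at this
  have small : ∀ z : ℂ, R ≤ ‖z‖ → ‖F z‖ ≤ C / R ^ 2 := by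
    intro z hz'
    refine (hC z (hR1.trans hz')).trans ?_
    gcongr
  have n1 : ∀ a b : ℝ, R ≤ |a| → R ≤ ‖((a : ℂ) + b * I)‖ := fun a b h => by
    refine h.trans ?_
    have := Complex.abs_re_le_norm ((a : ℂ) + b * I)
    simpa using this
  have n2 : ∀ a b : ℝ, R ≤ |b| → R ≤ ‖((a : ℂ) + b * I)‖ := fun a b h => by
    refine h.trans ?_
    have := Complex.abs_im_le_norm ((a : ℂ) + b * I)
    simpa using this
  have aR : R ≤ |R| := le_abs_self R
  have aR' : R ≤ |-R| := by rw [abs_neg]; exact aR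
  have b1 := bound (fun x => F (x + ((-R : ℝ) : ℂ) * I)) fun x _ => small _ (n2 _ _ aR')
  have b2 := bound (fun x => F (x + ((R : ℝ) : ℂ) * I)) fun x _ => small _ (n2 _ _ aR)
  have b3 := bound (fun y => F (((R : ℝ) : ℂ) + y * I)) fun x _ => small _ (n1 _ _ aR)
  have b4 := bound (fun y => F (((-R : ℝ) : ℂ) + y * I)) fun x _ => small _ (n1 _ _ aR')
  have hb := Complex.re_le_norm ((∫ (x : ℝ) in -R..R, F (↑x + ((-R : ℝ) : ℂ) * I)) -
    (∫ (x : ℝ) in -R..R, F (↑x + ((R : ℝ) : ℂ) * I)) +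
      I • (∫ (y : ℝ) in -R..R, F (((R : ℝ) : ℂ) + ↑y * I)) -
      I • ∫ (y : ℝ) in -R..R, F (((-R : ℝ) : ℂ) + ↑y * I))
  have hI : ∀ w : ℂ, ‖I • w‖ = ‖w‖ := fun w => by rw [norm_smul, norm_I, one_mul]
  have t1 := norm_sub_le ((∫ (x : ℝ) in -R..R, F (↑x + ((-R : ℝ) : ℂ) * I)) -
    (∫ (x : ℝ) in -R..R, F (↑x + ((R : ℝ) : ℂ) * I)) +
      I • (∫ (y : ℝ) in -R..R, F (((R : ℝ) : ℂ) + ↑y * I)))
      (I • ∫ (y : ℝ) in -R..R, F (((-R : ℝ) : ℂ) + ↑y * I))
  have t2 := norm_add_le ((∫ (x : ℝ) in -R..R, F (↑x + ((-R : ℝ) : ℂ) * I)) -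
    (∫ (x : ℝ) in -R..R, F (↑x + ((R : ℝ) : ℂ) * I)))
      (I • (∫ (y : ℝ) in -R..R, F (((R : ℝ) : ℂ) + ↑y * I)))
  have t3 := norm_sub_le (∫ (x : ℝ) in -R..R, F (↑x + ((-R : ℝ) : ℂ) * I))
    (∫ (x : ℝ) in -R..R, F (↑x + ((R : ℝ) : ℂ) * I))
  rw [hI] at t1 t2
  have hlow' : δ ≤ 4 * (C / R ^ 2 * (2 * R)) := by
    refine hlow.trans (hb.trans ?_)
    linarith
  have e : 4 * (C / R ^ 2 * (2 * R)) = 8 * C / R := by
    field_simp
    ring
  rw [e, le_div_iff₀ hRpos, hRdef, mul_add, mul_div_cancel₀ _ hδ.ne'] at hlow'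
  nlinarith

end Pool.Agent.H87.GWNil
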