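import Mathlib

/-!
# Smooth integrals with a parameter and the Poincaré lemma for two-forms
-/

open scoped ContDiff
open MeasureTheory

set_option maxSynthPendingDepth 3

namespace Pool.Agent.H87.GWNil

variable {E : Type} [NormedAddCommGroup E] [NormedSpace ℝ E] [ProperSpace E]

/-! ### Integrals depending on a parameter -/

theorem hasFDerivAt_param {F : Type} [NormedAddCommGroup F] [NormedSpace ℝ F] [CompleteSpace F]
    {Φ : E × ℝ → F} (hΦ : ContDiff ℝ ∞ Φ) (x₀ : E) :
    HasFDerivAt (fun x => ∫ s in (0 : ℝ)..1, Φ (x, s))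
      (∫ s in (0 : ℝ)..1, fderiv ℝ Φ (x₀, s) ∘L ContinuousLinearMap.inl ℝ E ℝ) x₀ := by
  have hc : Continuous fun p : E × ℝ => fderiv ℝ Φ p ∘L ContinuousLinearMap.inl ℝ E ℝ :=
    (hΦ.continuous_fderiv (by simp)).clm_comp continuous_const
  obtain ⟨B, hB⟩ := (((isCompact_closedBall x₀ 1).prod (isCompact_Icc (a := (0 : ℝ)) (b := 1))).image
    hc).isBounded.exists_norm_le
  have hcx : ∀ x : E, Continuous fun s : ℝ => Φ (x, s) := fun x =>
    hΦ.continuous.comp (by fun_prop)
  have hcx' : ∀ x : E, Continuous fun s : ℝ =>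
      fderiv ℝ Φ (x, s) ∘L ContinuousLinearMap.inl ℝ E ℝ := fun x =>
    hc.comp (by fun_prop : Continuous fun s : ℝ => (x, s))
  refine intervalIntegral.hasFDerivAt_integral_of_dominated_of_fderiv_le
    (F := fun x s => Φ (x, s)) (F' := fun x s => fderiv ℝ Φ (x, s) ∘L ContinuousLinearMap.inl ℝ E ℝ)
    (bound := fun _ => B) (s := Metric.ball x₀ 1) (Metric.ball_mem_nhds x₀ one_pos) ?_ ?_ ?_ ?_ ?_ ?_
  · exact Filter.Eventually.of_forall fun x => (hcx x).aestronglyMeasurable
  · exact (hcx x₀).intervalIntegrable _ _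
  · exact (hcx' x₀).aestronglyMeasurable
  · refine Filter.Eventually.of_forall fun t ht x hx => ?_
    refine hB _ ⟨(x, t), ⟨Metric.ball_subset_closedBall hx, ?_⟩, rfl⟩
    rw [Set.uIoc_of_le zero_le_one] at ht
    exact ⟨ht.1.le, ht.2⟩
  · exact intervalIntegrable_const
  · refine Filter.Eventually.of_forall fun t ht x hx => ?_
    have h1 : HasFDerivAt Φ (fderiv ℝ Φ (x, t)) (x, t) :=
      (hΦ.differentiable (by simp) _).hasFDerivAt
    have h2 : HasFDerivAt (fun x : E => (x, t)) (ContinuousLinearMap.inl ℝ E ℝ) x :=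
      hasFDerivAt_prodMk_left x t
    exact h1.comp x h2

theorem contDiff_param_nat (n : ℕ) : ∀ {F : Type} [NormedAddCommGroup F] [NormedSpace ℝ F]
    [CompleteSpace F] {Φ : E × ℝ → F} (_ : ContDiff ℝ ∞ Φ),
    ContDiff ℝ n (fun x => ∫ s in (0 : ℝ)..1, Φ (x, s)) := by
  induction n with
  | zero =>
    intro F _ _ _ Φ hΦ
    have h : Differentiable ℝ (fun x => ∫ s in (0 : ℝ)..1, Φ (x, s)) := fun x =>
      (hasFDerivAt_param hΦ x).differentiableAt
    exact contDiff_zero.2 h.continuous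
  | succ n ih =>
    intro F _ _ _ Φ hΦ
    have h : Differentiable ℝ (fun x => ∫ s in (0 : ℝ)..1, Φ (x, s)) := fun x =>
      (hasFDerivAt_param hΦ x).differentiableAt
    have hΦ' : ContDiff ℝ ∞ fun p : E × ℝ => fderiv ℝ Φ p ∘L ContinuousLinearMap.inl ℝ E ℝ :=
      (hΦ.fderiv_right (by simp)).clm_comp contDiff_const
    have h2 := ih hΦ'
    have e : fderiv ℝ (fun x => ∫ s in (0 : ℝ)..1, Φ (x, s)) =
        fun x => ∫ s in (0 : ℝ)..1, fderiv ℝ Φ (x, s) ∘L ContinuousLinearMap.inl ℝ E ℝ :=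
      funext fun x => (hasFDerivAt_param hΦ x).fderiv
    push_cast
    rw [contDiff_succ_iff_fderiv]
    refine ⟨h, ?_, ?_⟩
    · intro hn
      exact absurd hn (by exact_mod_cast WithTop.natCast_ne_top _)
    · rw [e]
      exact h2

theorem contDiff_param {F : Type} [NormedAddCommGroup F] [NormedSpace ℝ F]
    [CompleteSpace F] {Φ : E × ℝ → F} (hΦ : ContDiff ℝ ∞ Φ) :
    ContDiff ℝ ∞ (fun x => ∫ s in (0 : ℝ)..1, Φ (x, s)) :=
  contDiff_infty.2 fun n => contDiff_param_nat n hΦ

/-! ### The primitive -/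

/-- The integrand of the primitive. -/
noncomputable def prim (B : E → (E →L[ℝ] (E →L[ℝ] ℂ))) (p : E × ℝ) : E →L[ℝ] ℂ :=
  p.2 • B (p.2 • p.1) p.1

omit [ProperSpace E] in
theorem contDiff_prim {B : E → (E →L[ℝ] (E →L[ℝ] ℂ))} (hB : ContDiff ℝ ∞ B) :
    ContDiff ℝ ∞ (prim B) :=
  contDiff_snd.smul ((hB.comp (contDiff_snd.smul contDiff_fst)).clm_apply contDiff_fst)

omit [ProperSpace E] in
theorem fderiv_prim {B : E → (E →L[ℝ] (E →L[ℝ] ℂ))} (hB : ContDiff ℝ ∞ B) (x : E) (s : ℝ)
    (a b : E) : (fderiv ℝ (prim B) (x, s) ∘L ContinuousLinearMap.inl ℝ E ℝ) a b =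
      (s : ℂ) ^ 2 * fderiv ℝ B (s • x) a x b + s * B (s • x) a b := by
  have h1 : HasFDerivAt (prim B) (fderiv ℝ (prim B) (x, s)) (x, s) :=
    ((contDiff_prim hB).differentiable (by simp) _).hasFDerivAt
  have h2 : HasFDerivAt (fun x : E => (x, s)) (ContinuousLinearMap.inl ℝ E ℝ) x :=
    hasFDerivAt_prodMk_left x s
  have h3 : HasFDerivAt (fun y : E => prim B (y, s))
      (fderiv ℝ (prim B) (x, s) ∘L ContinuousLinearMap.inl ℝ E ℝ) x :=
    HasFDerivAt.comp (g := prim B) x h1 h2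
  have h4 : HasFDerivAt (fun y : E => s • y) (s • ContinuousLinearMap.id ℝ E) x :=
    (hasFDerivAt_id x).const_smul s
  have h5 : HasFDerivAt B (fderiv ℝ B (s • x)) (s • x) :=
    (hB.differentiable (by simp) _).hasFDerivAt
  have h6 : HasFDerivAt (fun y : E => B (s • y)) _ x := HasFDerivAt.comp (g := B) x h5 h4
  have h7 := (h6.clm_apply (hasFDerivAt_id x)).const_smul s
  have h8 : HasFDerivAt (fun y : E => prim B (y, s)) _ x := h7
  rw [h3.unique h8]
  simp
  ring

/-- The Poincaré lemma for two-forms. -/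
theorem exists_prim {B : E → (E →L[ℝ] (E →L[ℝ] ℂ))} (hB : ContDiff ℝ ∞ B)
    (ha : ∀ x a b, B x a b = -B x b a)
    (hd : ∀ x a b c, fderiv ℝ B x a b c - fderiv ℝ B x b a c + fderiv ℝ B x c a b = 0) :
    ∃ ℓ : E → (E →L[ℝ] ℂ), ContDiff ℝ ∞ ℓ ∧
      ∀ x a b, fderiv ℝ ℓ x a b - fderiv ℝ ℓ x b a = B x a b := by
  set ℓ : E → (E →L[ℝ] ℂ) := fun x => ∫ s in (0 : ℝ)..1, prim B (x, s) with hℓ
  refine ⟨ℓ, contDiff_param (contDiff_prim hB), fun x a b => ?_⟩
  have hder : ∀ v w : E, fderiv ℝ ℓ x v w =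
      ∫ s in (0 : ℝ)..1, ((s : ℂ) ^ 2 * fderiv ℝ B (s • x) v x w + s * B (s • x) v w) := by
    intro v w
    have hc : Continuous fun s : ℝ =>
        fderiv ℝ (prim B) (x, s) ∘L ContinuousLinearMap.inl ℝ E ℝ :=
      (((contDiff_prim hB).continuous_fderiv (by simp)).comp
        (by fun_prop : Continuous fun s : ℝ => (x, s))).clm_comp continuous_const
    rw [(hasFDerivAt_param (contDiff_prim hB) x).fderiv]
    have hI := hc.intervalIntegrable (μ := volume) 0 1
    rw [ContinuousLinearMap.intervalIntegral_apply hI]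
    have hI2 := (hc.clm_apply continuous_const : Continuous fun s : ℝ =>
      (fderiv ℝ (prim B) (x, s) ∘L ContinuousLinearMap.inl ℝ E ℝ) v).intervalIntegrable
        (μ := volume) 0 1
    rw [ContinuousLinearMap.intervalIntegral_apply hI2]
    exact intervalIntegral.integral_congr fun s _ => fderiv_prim hB x s v w
  have hbc : Continuous B := hB.continuous
  have hbc' : Continuous (fderiv ℝ B) := hB.continuous_fderiv (by simp)
  have hsx : Continuous fun s : ℝ => s • x := by fun_prop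
  have hcont : ∀ v w : E, Continuous fun s : ℝ =>
      ((s : ℂ) ^ 2 * fderiv ℝ B (s • x) v x w + s * B (s • x) v w) := by
    intro v w
    have c1 : Continuous fun s : ℝ => fderiv ℝ B (s • x) v x w :=
      (((hbc'.comp hsx).clm_apply continuous_const).clm_apply continuous_const).clm_apply
        continuous_const
    have c2 : Continuous fun s : ℝ => B (s • x) v w :=
      ((hbc.comp hsx).clm_apply continuous_const).clm_apply continuous_const
    have c3 : Continuous fun s : ℝ => (s : ℂ) := Complex.continuous_ofReal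
    exact ((c3.pow 2).mul c1).add (c3.mul c2)
  rw [hder a b, hder b a, ← intervalIntegral.integral_sub ((hcont a b).intervalIntegrable _ _)
    ((hcont b a).intervalIntegrable _ _)]
  have hprim : ∀ s : ℝ, HasDerivAt (fun s : ℝ => (s : ℂ) ^ 2 * B (s • x) a b)
      (((s : ℂ) ^ 2 * fderiv ℝ B (s • x) a x b + s * B (s • x) a b) -
        ((s : ℂ) ^ 2 * fderiv ℝ B (s • x) b x a + s * B (s • x) b a)) s := by
    intro s
    have k1 : HasDerivAt (fun s : ℝ => s • x) x s := by
      have := (hasDerivAt_id s).smul_const x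
      simpa using this
    have k2 : HasFDerivAt B (fderiv ℝ B (s • x)) (s • x) :=
      (hB.differentiable (by simp) _).hasFDerivAt
    have k3 : HasDerivAt (fun s : ℝ => B (s • x)) (fderiv ℝ B (s • x) x) s :=
      HasFDerivAt.comp_hasDerivAt (l := B) s k2 k1
    have k4 : HasDerivAt (fun s : ℝ => B (s • x) a b) (fderiv ℝ B (s • x) x a b) s := by
      have m1 := k3.clm_apply (hasDerivAt_const s a)
      have m2 := m1.clm_apply (hasDerivAt_const s b)
      simpa using m2
    have k5 : HasDerivAt (fun s : ℝ => (s : ℂ)) 1 s := Complex.ofRealCLM.hasDerivAt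
    have k6 := (k5.pow 2).mul k4
    have hcl := hd (s • x) x a b
    have han := ha (s • x) b a
    refine HasDerivAt.congr_deriv (f := fun s : ℝ => (s : ℂ) ^ 2 * B (s • x) a b) k6 ?_
    rw [han]
    simp
    linear_combination (s : ℂ) ^ 2 * hcl
  rw [intervalIntegral.integral_eq_sub_of_hasDerivAt (fun s _ => hprim s)
    (((hcont a b).sub (hcont b a)).intervalIntegrable _ _)]
  simp

end Pool.Agent.H87.GWNil
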