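import Pool.Agent.H87.GWNil.Spheres
import Pool.Agent.H87.GWNil.Param

/-!
# The Poincaré lemma for two-forms on `G`, and the absence of spheres
-/

open scoped ContDiff
open MeasureTheory

set_option maxSynthPendingDepth 3

namespace Pool.Agent.H87.GWNil

open Pool.Agent.H64.GW.Nil Pool.Agent.H95.GWNil Pool.Agent.H61.GWNil

/-! ### Two-forms as bilinear maps -/

/-- A two-form as a field of bilinear forms. -/
noncomputable def bil (σ : Form 2) (x : G) : G →L[ℝ] (G →L[ℝ] ℂ) :=
  linCLM ∘L (σ x).curryLeft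

theorem bil_apply (σ : Form 2) (x v w : G) : bil σ x v w = σ x ![v, w] := by
  have h : (fun _ : Fin 1 => w) = ![w] := by
    funext i
    fin_cases i
    rfl
  have h2 : bil σ x v w = ((σ x).curryLeft v) (fun _ => w) := rfl
  rw [h2, h]
  rfl

theorem contDiff_bil {σ : Form 2} (hσ : ContDiff ℝ ∞ σ) : ContDiff ℝ ∞ (bil σ) :=
  contDiff_const.clm_comp ((contDiff_curryLeft 1).comp hσ)

theorem fderiv_bil {σ : Form 2} (hσ : ContDiff ℝ ∞ σ) (x a b c : G) :
    fderiv ℝ (fun y => σ y ![b, c]) x a = fderiv ℝ (bil σ) x a b c := by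
  have e : (fun y => σ y ![b, c]) = fun y => bil σ y b c := funext fun y => (bil_apply σ y b c).symm
  rw [e]
  have h : HasFDerivAt (bil σ) (fderiv ℝ (bil σ) x) x :=
    ((contDiff_bil hσ).differentiable (by simp) x).hasFDerivAt
  have h1 := (h.clm_apply (hasFDerivAt_const b x)).clm_apply (hasFDerivAt_const c x)
  have h2 : HasFDerivAt (fun y => bil σ y b c) _ x := h1
  rw [h2.fderiv]
  simp

theorem closed_bil {σ : Form 2} (hσ : ContDiff ℝ ∞ σ) (hd : extDeriv σ = 0) (x a b c : G) :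
    fderiv ℝ (bil σ) x a b c - fderiv ℝ (bil σ) x b a c + fderiv ℝ (bil σ) x c a b = 0 := by
  have h := congrFun hd x
  have h1 := extDeriv_apply (hσ.differentiable (by simp) x) ![a, b, c]
  rw [h] at h1
  have h3 := Fin.sum_univ_three (fun i : Fin 3 => (-1 : ℤ) ^ (i : ℕ) •
    fderiv ℝ (fun y => σ y (i.removeNth ![a, b, c])) x (![a, b, c] i))
  have e0 : (Fin.removeNth 0 ![a, b, c] : Fin 2 → G) = ![b, c] := by
    funext i
    fin_cases i <;> rfl
  have e1 : (Fin.removeNth 1 ![a, b, c] : Fin 2 → G) = ![a, c] := by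
    funext i
    fin_cases i <;> rfl
  have e2 : (Fin.removeNth 2 ![a, b, c] : Fin 2 → G) = ![a, b] := by
    funext i
    fin_cases i <;> rfl
  rw [e0, e1, e2, fderiv_bil hσ, fderiv_bil hσ, fderiv_bil hσ] at h3
  have h4 := h1.trans h3
  simp at h4
  rw [h4]
  ring

theorem anti_bil (σ : Form 2) (x a b : G) : bil σ x a b = - bil σ x b a := by
  rw [bil_apply, bil_apply, map_swap_two]

/-- Linear forms as alternating forms. -/
noncomputable def altCLM : (G →L[ℝ] ℂ) →L[ℝ] (G [⋀^Fin 1]→L[ℝ] ℂ) :=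
  LinearMap.mkContinuous
    { toFun := fun f => (ContinuousAlternatingMap.ofSubsingleton ℝ G ℂ (0 : Fin 1)) f
      map_add' := fun _ _ => rfl
      map_smul' := fun _ _ => rfl } 1 (fun f => by
        rw [one_mul]
        refine ContinuousAlternatingMap.opNorm_le_bound _ (norm_nonneg _) fun v => ?_
        rw [Fin.prod_univ_one]
        exact f.le_opNorm (v 0))

theorem lin_altCLM (f : G →L[ℝ] ℂ) : linCLM (altCLM f) = f := by
  ext1 v
  rfl

/-- The Poincaré lemma for two-forms on `G`. -/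
theorem exists_primitive {σ : Form 2} (hσ : ContDiff ℝ ∞ σ) (hd : extDeriv σ = 0) :
    ∃ L : Form 1, ContDiff ℝ ∞ L ∧ extDeriv L = σ := by
  obtain ⟨ℓ, hℓ, hdℓ⟩ := exists_prim (contDiff_bil hσ) (anti_bil σ) (closed_bil hσ hd)
  have hLs : ContDiff ℝ ∞ fun x => altCLM (ℓ x) := altCLM.contDiff.comp hℓ
  refine ⟨fun x => altCLM (ℓ x), hLs, ?_⟩
  have hlin : lin (fun x => altCLM (ℓ x)) = ℓ := by
    rw [lin_eq]
    funext x
    exact lin_altCLM _
  funext x
  refine form_two_ext (x := x) fun i j => ?_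
  rw [extDeriv_one hLs, hlin, hdℓ, bil_apply]

/-- (S4) in general: the nilmanifold `V` has no nonconstant `J`-holomorphic spheres, for all almost
complex structures `J` on `V` which are tamed by a symplectic form. -/
theorem spheres {σ : Form 2} (hσ : σ ∈ Z2) {J : G → (G →L[ℝ] G)} (hJ : IsTame σ J) {u v : ℂ → G}
    (hs : IsSphere J u v) : ∀ z, u z = u 0 := by
  obtain ⟨L, hL, hdL⟩ := exists_primitive hσ.1.1 hσ.2
  exact sphere_constant hL hdL hJ hs

end Pool.Agent.H87.GWNil
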