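import Pool.Agent.H64.GW.Nil.Sphere
import Pool.Agent.H95.GWNil.Forms

/-!
# A tame almost complex structure on the nilmanifold
-/

open scoped ContDiff
open MeasureTheory

namespace Pool.Agent.H87.GWNil

open Pool.Agent.H64.GW.Nil Pool.Agent.H95.GWNil

/-- A two-form with constant coefficients, in terms of the coframe. -/
theorem formula {σ : Form 2} (h : ∀ i j x, σ x ![X i x, X j x] = cω i j) (x u v : G) :
    σ x ![u, v] = ∑ i : Fin 6, ∑ j : Fin 6, cω i j * (E x i u : ℂ) * (E x j v : ℂ) := by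
  obtain ⟨α, -, h2, h3⟩ := exists_form_two' cω cω_anti cω_zero cω_closed
  have e : σ x = α x := form_two_ext (x := x) fun i j => by rw [h, h2]
  rw [e, h3]

theorem formula' {σ : Form 2} (h : ∀ i j x, σ x ![X i x, X j x] = cω i j) (x u v : G) :
    σ x ![u, v] = ((E x 0 u * E x 5 v - E x 5 u * E x 0 v + (E x 2 u * E x 3 v - E x 3 u * E x 2 v)
      - (E x 1 u * E x 4 v - E x 4 u * E x 1 v) : ℝ) : ℂ) := by
  rw [formula h]
  simp [Fin.sum_univ_six, cω]
  ring

/-- The coframe as continuous linear forms. -/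
noncomputable def ec (k : Fin 6) (x : G) : G →L[ℝ] ℝ :=
  ∑ j : Fin 6, cf k j x • (ContinuousLinearMap.proj (R := ℝ) (φ := fun _ : Fin 6 => ℝ) j)

theorem ec_apply (k : Fin 6) (x v : G) : ec k x v = E x k v := by
  simp [ec, E]

theorem ec_contDiff (k : Fin 6) : ContDiff ℝ ∞ (ec k) := by
  unfold ec
  exact ContDiff.sum fun j _ => (cf_contDiff k j).smul contDiff_const

/-- The almost complex structure with constant coefficients. -/
noncomputable def Jst (x : G) : G →L[ℝ] G :=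
  (ec 0 x).smulRight (X 5 x) - (ec 5 x).smulRight (X 0 x) + (ec 2 x).smulRight (X 3 x)
    - (ec 3 x).smulRight (X 2 x) + (ec 4 x).smulRight (X 1 x) - (ec 1 x).smulRight (X 4 x)

theorem Jst_apply (x v : G) : Jst x v = E x 0 v • X 5 x - E x 5 v • X 0 x + E x 2 v • X 3 x
    - E x 3 v • X 2 x + E x 4 v • X 1 x - E x 1 v • X 4 x := by
  simp [Jst, ec_apply]

theorem E_sub (x : G) (k : Fin 6) (u v : G) : E x k (u - v) = E x k u - E x k v := by
  rw [sub_eq_add_neg, E_add, ← neg_one_smul ℝ v, E_smul]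
  ring

theorem E_neg (x : G) (k : Fin 6) (v : G) : E x k (-v) = -E x k v := by
  rw [← neg_one_smul ℝ v, E_smul]
  ring

theorem E_Jst (x v : G) (k : Fin 6) : E x k (Jst x v) =
    ![-E x 5 v, E x 4 v, -E x 3 v, E x 2 v, -E x 1 v, E x 0 v] k := by
  have h0 := E_X x k 0
  have h1 := E_X x k 1
  have h2 := E_X x k 2
  have h3 := E_X x k 3
  have h4 := E_X x k 4
  have h5 := E_X x k 5
  have c0 : ((0 : Fin 6) : ℕ) = 0 := rfl
  have c1 : ((1 : Fin 6) : ℕ) = 1 := rfl
  have c2 : ((2 : Fin 6) : ℕ) = 2 := rfl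
  have c3 : ((3 : Fin 6) : ℕ) = 3 := rfl
  have c4 : ((4 : Fin 6) : ℕ) = 4 := rfl
  have c5 : ((5 : Fin 6) : ℕ) = 5 := rfl
  rw [c0] at h0
  rw [c1] at h1
  rw [c2] at h2
  rw [c3] at h3
  rw [c4] at h4
  rw [c5] at h5
  rw [Jst_apply, E_sub, E_add, E_sub, E_add, E_sub, E_smul, E_smul, E_smul, E_smul, E_smul, E_smul,
    h0, h1, h2, h3, h4, h5]
  fin_cases k <;> simp

theorem E_ext {x u v : G} (h : ∀ k, E x k u = E x k v) : u = v := by
  rw [← sum_E_X x u, ← sum_E_X x v]
  exact Finset.sum_congr rfl fun k _ => by rw [h]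

/-- (S1) -/
theorem exists_tame {σ : Form 2} (h : ∀ i j x, σ x ![X i x, X j x] = cω i j) :
    ∃ J : G → (G →L[ℝ] G), IsTame σ J := by
  refine ⟨Jst, ?_, ?_, ?_, ?_⟩
  · unfold Jst
    have hX := X_contDiff
    have he := ec_contDiff
    exact ((((((he 0).smulRight (hX 5)).sub ((he 5).smulRight (hX 0))).add
      ((he 2).smulRight (hX 3))).sub ((he 3).smulRight (hX 2))).add
      ((he 4).smulRight (hX 1))).sub ((he 1).smulRight (hX 4))
  · intro x v
    refine E_ext (x := x) fun k => ?_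
    rw [E_Jst, E_neg]
    fin_cases k <;> simp [E_Jst]
  · intro γ hγ x v
    rw [fderiv_mul]
    refine E_ext (x := mul γ x) fun k => ?_
    rw [E_dmul, E_Jst, E_Jst]
    simp only [E_dmul]
  · intro x v hv
    rw [formula' h, E_Jst, E_Jst, E_Jst, E_Jst, E_Jst, E_Jst, Complex.ofReal_re]
    have hne : ∃ k, E x k v ≠ 0 := by
      by_contra hcon
      push Not at hcon
      apply hv
      rw [← sum_E_X x v]
      exact Finset.sum_eq_zero fun k _ => by rw [hcon k, zero_smul]
    have hsum : 0 < ∑ k : Fin 6, E x k v ^ 2 := by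
      obtain ⟨k, hk⟩ := hne
      exact Finset.sum_pos' (fun i _ => sq_nonneg _) ⟨k, Finset.mem_univ _, by positivity⟩
    rw [Fin.sum_univ_six] at hsum
    simp
    nlinarith

end Pool.Agent.H87.GWNil
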