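import Pool.Agent.H87.GWNil.Energy
import Pool.Agent.H87.GWNil.Tame

/-!
# There are no nonconstant pseudo-holomorphic spheres in the nilmanifold
-/

open scoped ContDiff
open MeasureTheory

namespace Pool.Agent.H87.GWNil

open Pool.Agent.H64.GW.Nil Pool.Agent.H95.GWNil Pool.Agent.H61.GWNil

/-! ### One-forms -/

/-- A one-form as a field of linear forms. -/
noncomputable def lin (L : Form 1) (x : G) : G →L[ℝ] ℂ :=
  (ContinuousAlternatingMap.ofSubsingleton ℝ G ℂ (0 : Fin 1)).symm (L x)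

theorem lin_apply (L : Form 1) (x v : G) : lin L x v = L x ![v] := by
  have h : (fun _ : Fin 1 => v) = ![v] := by
    funext i
    fin_cases i
    rfl
  rw [← h]
  rfl

/-- The evaluation of one-forms as linear forms is linear. -/
noncomputable def linCLM : (G [⋀^Fin 1]→L[ℝ] ℂ) →L[ℝ] (G →L[ℝ] ℂ) :=
  LinearMap.mkContinuous
    { toFun := fun f => (ContinuousAlternatingMap.ofSubsingleton ℝ G ℂ (0 : Fin 1)).symm f
      map_add' := fun _ _ => rfl
      map_smul' := fun _ _ => rfl } 1 (fun f => by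
        rw [one_mul]
        refine ContinuousLinearMap.opNorm_le_bound _ (norm_nonneg _) fun v => ?_
        have h : ((ContinuousAlternatingMap.ofSubsingleton ℝ G ℂ (0 : Fin 1)).symm f) v
            = f (fun _ => v) := rfl
        have h2 := f.le_opNorm (fun _ => v)
        rw [Fin.prod_univ_one] at h2
        exact h2)

theorem lin_eq (L : Form 1) : lin L = fun x => linCLM (L x) := rfl

theorem contDiff_lin {L : Form 1} (hL : ContDiff ℝ ∞ L) : ContDiff ℝ ∞ (lin L) :=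
  linCLM.contDiff.comp hL

theorem fderiv_lin {L : Form 1} (hL : ContDiff ℝ ∞ L) (x v w : G) :
    fderiv ℝ (lin L) x v w = (fderiv ℝ L x v) ![w] := by
  have hd : DifferentiableAt ℝ L x := (hL.differentiable (by simp)) x
  have h : HasFDerivAt (lin L) (linCLM.comp (fderiv ℝ L x)) x :=
    linCLM.hasFDerivAt.comp x hd.hasFDerivAt
  rw [h.fderiv]
  have e : (fun _ : Fin 1 => w) = ![w] := by
    funext i
    fin_cases i
    rfl
  rw [← e]
  rfl

/-- The exterior derivative of a one-form. -/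
theorem extDeriv_one {L : Form 1} (hL : ContDiff ℝ ∞ L) (x v w : G) :
    extDeriv L x ![v, w] = fderiv ℝ (lin L) x v w - fderiv ℝ (lin L) x w v := by
  rw [extDeriv, ContinuousAlternatingMap.alternatizeUncurryFin_apply]
  have h := Fin.sum_univ_two (fun i : Fin 2 => (-1 : ℤ) ^ (i : ℕ) •
    (fderiv ℝ L x (![v, w] i)) (i.removeNth ![v, w]))
  refine h.trans ?_
  rw [fderiv_lin hL, fderiv_lin hL]
  have e0 : (Fin.removeNth 0 ![v, w] : Fin 1 → G) = ![w] := by
    funext i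
    fin_cases i
    rfl
  have e1 : (Fin.removeNth 1 ![v, w] : Fin 1 → G) = ![v] := by
    funext i
    fin_cases i
    rfl
  simp only [e0, e1, Matrix.cons_val_zero, Matrix.cons_val_one]
  simp
  ring

/-! ### The energy density is a divergence -/

/-- The field whose divergence is the energy density. -/
noncomputable def fld (L : Form 1) (u : ℂ → G) (z : ℂ) : ℂ :=
  ((lin L (u z) (fderiv ℝ u z 1)).re : ℂ) - Complex.I * ((lin L (u z) (fderiv ℝ u z Complex.I)).re : ℂ)

theorem contDiff_comp {L : Form 1} (hL : ContDiff ℝ ∞ L) {u : ℂ → G} (hu : ContDiff ℝ ∞ u)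
    (c : ℂ) : ContDiff ℝ ∞ fun z => lin L (u z) (fderiv ℝ u z c) :=
  ((contDiff_lin hL).comp hu).clm_apply ((hu.fderiv_right (by simp)).clm_apply contDiff_const)

theorem fderiv_comp_apply {L : Form 1} (hL : ContDiff ℝ ∞ L) {u : ℂ → G} (hu : ContDiff ℝ ∞ u)
    (c z h : ℂ) : fderiv ℝ (fun z => lin L (u z) (fderiv ℝ u z c)) z h =
      fderiv ℝ (lin L) (u z) (fderiv ℝ u z h) (fderiv ℝ u z c)
        + lin L (u z) (fderiv ℝ (fderiv ℝ u) z h c) := by
  have hd : HasFDerivAt u (fderiv ℝ u z) z := (hu.differentiable (by simp) z).hasFDerivAt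
  have hl : HasFDerivAt (lin L) (fderiv ℝ (lin L) (u z)) (u z) :=
    ((contDiff_lin hL).differentiable (by simp) _).hasFDerivAt
  have hu1 : ContDiff ℝ ∞ (fderiv ℝ u) := hu.fderiv_right (by simp)
  have hd2 : HasFDerivAt (fderiv ℝ u) (fderiv ℝ (fderiv ℝ u) z) z :=
    (hu1.differentiable (by simp) z).hasFDerivAt
  have h1 := (hl.comp z hd).clm_apply (hd2.clm_apply (hasFDerivAt_const c z))
  have h2 : HasFDerivAt (fun z => lin L (u z) (fderiv ℝ u z c)) _ z := h1
  rw [h2.fderiv]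
  simp
  ring

theorem fderiv_re {g : ℂ → ℂ} (hg : Differentiable ℝ g) (z h : ℂ) :
    fderiv ℝ (fun z => ((g z).re : ℂ)) z h = ((fderiv ℝ g z h).re : ℂ) := by
  have h1 : HasFDerivAt (fun z => ((g z).re : ℂ))
      (Complex.ofRealCLM.comp (Complex.reCLM.comp (fderiv ℝ g z))) z :=
    Complex.ofRealCLM.hasFDerivAt.comp z (Complex.reCLM.hasFDerivAt.comp z (hg z).hasFDerivAt)
  rw [h1.fderiv]
  rfl

theorem fld_contDiff {L : Form 1} (hL : ContDiff ℝ ∞ L) {u : ℂ → G} (hu : ContDiff ℝ ∞ u) :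
    ContDiff ℝ ∞ (fld L u) := by
  have h1 : ContDiff ℝ ∞ fun z => ((lin L (u z) (fderiv ℝ u z 1)).re : ℂ) :=
    Complex.ofRealCLM.contDiff.comp (Complex.reCLM.contDiff.comp (contDiff_comp hL hu 1))
  have h2 : ContDiff ℝ ∞ fun z => ((lin L (u z) (fderiv ℝ u z Complex.I)).re : ℂ) :=
    Complex.ofRealCLM.contDiff.comp (Complex.reCLM.contDiff.comp (contDiff_comp hL hu Complex.I))
  exact h1.sub (contDiff_const.mul h2)

theorem fld_div {L : Form 1} (hL : ContDiff ℝ ∞ L) {u : ℂ → G} (hu : ContDiff ℝ ∞ u) (z : ℂ) :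
    (Complex.I • fderiv ℝ (fld L u) z 1 - fderiv ℝ (fld L u) z Complex.I).re
      = (extDeriv L (u z) ![fderiv ℝ u z 1, fderiv ℝ u z Complex.I]).re := by
  have d1 : Differentiable ℝ fun z => lin L (u z) (fderiv ℝ u z 1) :=
    (contDiff_comp hL hu 1).differentiable (by simp)
  have d2 : Differentiable ℝ fun z => lin L (u z) (fderiv ℝ u z Complex.I) :=
    (contDiff_comp hL hu Complex.I).differentiable (by simp)
  have k1 : Differentiable ℝ fun z => ((lin L (u z) (fderiv ℝ u z 1)).re : ℂ) :=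
    fun z => (Complex.ofRealCLM.hasFDerivAt.comp z
      (Complex.reCLM.hasFDerivAt.comp z (d1 z).hasFDerivAt)).differentiableAt
  have k2 : Differentiable ℝ fun z => ((lin L (u z) (fderiv ℝ u z Complex.I)).re : ℂ) :=
    fun z => (Complex.ofRealCLM.hasFDerivAt.comp z
      (Complex.reCLM.hasFDerivAt.comp z (d2 z).hasFDerivAt)).differentiableAt
  have e : ∀ h, fderiv ℝ (fld L u) z h
      = ((fderiv ℝ (fun z => lin L (u z) (fderiv ℝ u z 1)) z h).re : ℂ)
        - Complex.I * ((fderiv ℝ (fun z => lin L (u z) (fderiv ℝ u z Complex.I)) z h).re : ℂ) := by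
    intro h
    have h3 := ((k1 z).hasFDerivAt.sub ((k2 z).hasFDerivAt.const_mul Complex.I))
    have h4 : HasFDerivAt (fld L u) _ z := h3
    rw [h4.fderiv]
    rw [← fderiv_re d1, ← fderiv_re d2]
    rfl
  rw [e, e, fderiv_comp_apply hL hu, fderiv_comp_apply hL hu, fderiv_comp_apply hL hu,
    fderiv_comp_apply hL hu, extDeriv_one hL]
  have hsym : fderiv ℝ (fderiv ℝ u) z Complex.I 1 = fderiv ℝ (fderiv ℝ u) z 1 Complex.I := by
    have h5 : IsSymmSndFDerivAt ℝ u z :=
      hu.contDiffAt.isSymmSndFDerivAt (by simp; norm_cast)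
    exact h5 _ _
  rw [hsym]
  simp

/-! ### The deck transformation -/

theorem countable_Lat : (H64.GW.Nil.Lat : Set G).Countable := by
  have h : (H64.GW.Nil.Lat : Set G) ⊆ Set.range fun c : Fin 6 → ℤ =>
      latElt (c 0) (c 1) (c 2) (c 3) (c 4) (c 5) := by
    intro g hg
    obtain ⟨c0, c1, c2, c3, c4, c5, e0, e1, e2, e3, e4, e5⟩ := Lat_binomial hg
    refine ⟨![c0, c1, c2, c3, c4, c5], ?_⟩
    apply ext6
    · exact e0.symm
    · exact e1.symm
    · exact e2.symm
    · exact e3.symm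
    · exact e4.symm
    · exact e5.symm
  exact (Set.countable_range _).mono h

theorem mul_inv' (a : G) : mul a (inv a) = 0 := by
  apply ext6 <;> simp <;> ring

theorem exists_deck {u v : ℂ → G} (hu : Continuous u) (hv : Continuous v)
    (h : ∀ z, z ≠ 0 → proj (v z) = proj (u z⁻¹)) :
    ∃ γ ∈ H64.GW.Nil.Lat, ∀ z, z ≠ 0 → v z = mul γ (u z⁻¹) := by
  have hex : ∀ z : ℂ, z ≠ 0 → ∃ γ ∈ H64.GW.Nil.Lat, mul γ (u z⁻¹) = v z := fun z hz =>
    proj_eq_iff.1 (h z hz)
  set g : ℂ → G := fun z => mul (v z) (inv (u z⁻¹)) with hg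
  have hgc : ContinuousOn g {(0 : ℂ)}ᶜ := by
    have h1 : ContinuousOn (fun z : ℂ => z⁻¹) {(0 : ℂ)}ᶜ := continuousOn_inv₀
    have h2 : ContinuousOn (fun z : ℂ => inv (u z⁻¹)) {(0 : ℂ)}ᶜ :=
      continuous_inv'.comp_continuousOn (hu.comp_continuousOn h1)
    exact continuous_mul'.comp_continuousOn (hv.continuousOn.prodMk h2)
  have hgL : ∀ z : ℂ, z ≠ 0 → g z ∈ H64.GW.Nil.Lat ∧ mul (g z) (u z⁻¹) = v z := by
    intro z hz
    obtain ⟨γ, hγ, e⟩ := hex z hz
    have : g z = γ := by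
      rw [hg]
      show mul (v z) (inv (u z⁻¹)) = γ
      rw [← e, mul_assoc', mul_inv', mul_zero']
    rw [this]
    exact ⟨hγ, e⟩
  have hpre : IsPreconnected ({(0 : ℂ)}ᶜ : Set ℂ) :=
    (isConnected_compl_singleton_of_one_lt_rank (by simp) 0).isPreconnected
  have himg : IsPreconnected (g '' {(0 : ℂ)}ᶜ) := hpre.image g hgc
  have hsub : (g '' {(0 : ℂ)}ᶜ).Subsingleton := by
    refine (countable_Lat.isTotallyDisconnected) _ ?_ himg
    rintro _ ⟨z, hz, rfl⟩
    exact (hgL z hz).1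
  refine ⟨g 1, (hgL 1 one_ne_zero).1, fun z hz => ?_⟩
  have e : g z = g 1 := hsub ⟨z, hz, rfl⟩ ⟨1, one_ne_zero, rfl⟩
  rw [← e, (hgL z hz).2]

/-! ### Main result -/

/-- The maps in a sphere are bounded and have decaying derivatives. -/
theorem bounds {u v : ℂ → G} (hu : ContDiff ℝ ∞ u) (hv : ContDiff ℝ ∞ v)
    (h : ∀ z, z ≠ 0 → proj (v z) = proj (u z⁻¹)) :
    ∃ K : Set G, IsCompact K ∧ (∀ z, u z ∈ K) ∧ ∃ C, ∀ z, 1 ≤ ‖z‖ → ‖fderiv ℝ u z‖ ≤ C / ‖z‖ ^ 2 := by
  obtain ⟨γ, hγ, hdeck⟩ := exists_deck hu.continuous hv.continuous h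
  have hrev : ∀ w : ℂ, w ≠ 0 → u w = mul (inv γ) (v w⁻¹) := by
    intro w hw
    rw [hdeck w⁻¹ (inv_ne_zero hw), inv_inv, ← mul_assoc', inv_mul', zero_mul']
  refine ⟨u '' Metric.closedBall 0 1 ∪ (fun z => mul (inv γ) (v z)) '' Metric.closedBall 0 1,
    ?_, ?_, ?_⟩
  · have hc : Continuous fun z => mul (inv γ) (v z) := (mul_contDiff _).continuous.comp hv.continuous
    exact ((isCompact_closedBall 0 1).image hu.continuous).union
      ((isCompact_closedBall 0 1).image hc)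
  · intro z
    rcases le_total ‖z‖ 1 with hz | hz
    · exact Or.inl ⟨z, by simpa using hz, rfl⟩
    · have hz0 : z ≠ 0 := by
        rintro rfl
        simp at hz
        linarith
      refine Or.inr ⟨z⁻¹, ?_, (hrev z hz0).symm⟩
      rw [mem_closedBall_zero_iff, norm_inv]
      exact inv_le_one_of_one_le₀ hz
  · have hv1 : Continuous (fderiv ℝ v) := hv.continuous_fderiv (by simp)
    obtain ⟨B, hB⟩ := ((isCompact_closedBall (0 : ℂ) 1).image hv1).isBounded.exists_norm_le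
    have hB' : ∀ z : ℂ, ‖z‖ ≤ 1 → ‖fderiv ℝ v z‖ ≤ B := fun z hz =>
      hB _ ⟨z, by simpa using hz, rfl⟩
    have hB0 : 0 ≤ B := (norm_nonneg _).trans (hB' 0 (by simp))
    refine ⟨‖dmul (inv γ)‖ * B, fun z hz => ?_⟩
    have hz0 : z ≠ 0 := by
      rintro rfl
      simp at hz
      linarith
    have hder : HasFDerivAt (fun w : ℂ => w⁻¹)
        ((ContinuousLinearMap.toSpanSingleton ℂ (-(z ^ 2)⁻¹) : ℂ →L[ℂ] ℂ).restrictScalars ℝ) z :=
      ((hasDerivAt_inv hz0).hasFDerivAt).restrictScalars ℝ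
    have hvz : HasFDerivAt v (fderiv ℝ v z⁻¹) z⁻¹ := (hv.differentiable (by simp) _).hasFDerivAt
    have h1 := (hasFDerivAt_mul (inv γ) (v z⁻¹)).comp z (hvz.comp z hder)
    have heq : u =ᶠ[nhds z] fun w => mul (inv γ) (v w⁻¹) := by
      filter_upwards [isOpen_ne.mem_nhds hz0] with w hw
      exact hrev w hw
    have h2 : HasFDerivAt (fun w => mul (inv γ) (v w⁻¹)) _ z := h1
    rw [heq.fderiv_eq, h2.fderiv]
    have hn : ‖((ContinuousLinearMap.toSpanSingleton ℂ (-(z ^ 2)⁻¹) : ℂ →L[ℂ] ℂ).restrictScalars ℝ)‖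
        ≤ 1 / ‖z‖ ^ 2 := by
      rw [ContinuousLinearMap.norm_restrictScalars, ContinuousLinearMap.norm_toSpanSingleton]
      rw [norm_neg, norm_inv, norm_pow, one_div]
    refine (ContinuousLinearMap.opNorm_comp_le _ _).trans ?_
    rw [mul_div_assoc]
    refine mul_le_mul_of_nonneg_left ?_ (norm_nonneg _)
    refine (ContinuousLinearMap.opNorm_comp_le _ _).trans ?_
    have hzi : ‖fderiv ℝ v z⁻¹‖ ≤ B := hB' _ (by
      rw [norm_inv]
      exact inv_le_one_of_one_le₀ hz)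
    calc _ ≤ B * (1 / ‖z‖ ^ 2) := mul_le_mul hzi hn (norm_nonneg _) hB0
      _ = B / ‖z‖ ^ 2 := by ring

/-- (S2) -/
theorem sphere_constant {σ : Form 2} {L : Form 1} (hL : ContDiff ℝ ∞ L) (hdL : extDeriv L = σ)
    {J : G → (G →L[ℝ] G)} (hJ : IsTame σ J) {u v : ℂ → G} (h : IsSphere J u v) :
    ∀ z, u z = u 0 := by
  obtain ⟨K, hK, huK, C, hC⟩ := bounds h.smooth h.smooth' h.glue
  obtain ⟨B, hB⟩ := (hK.image (contDiff_lin hL).continuous).isBounded.exists_norm_le
  have hB' : ∀ z, ‖lin L (u z)‖ ≤ B := fun z => hB _ ⟨u z, huK z, rfl⟩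
  have hB0 : 0 ≤ B := (norm_nonneg _).trans (hB' 0)
  set f : ℂ → ℝ := fun z => (σ (u z) ![fderiv ℝ u z 1, fderiv ℝ u z Complex.I]).re with hf
  have hdiv : ∀ z, (Complex.I • fderiv ℝ (fld L u) z 1 - fderiv ℝ (fld L u) z Complex.I).re
      = f z := fun z => by rw [fld_div hL h.smooth, hdL]
  have hFs : ContDiff ℝ ∞ (fld L u) := fld_contDiff hL h.smooth
  have hF1 : ContDiff ℝ 1 (fld L u) := hFs.of_le (by norm_cast)
  have hfc : Continuous f := by
    have hF' : Continuous (fderiv ℝ (fld L u)) := hF1.continuous_fderiv (by simp)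
    have c1 : Continuous fun z => fderiv ℝ (fld L u) z 1 := hF'.clm_apply continuous_const
    have c2 : Continuous fun z => fderiv ℝ (fld L u) z Complex.I := hF'.clm_apply continuous_const
    have c3 : Continuous fun z =>
        Complex.I • fderiv ℝ (fld L u) z 1 - fderiv ℝ (fld L u) z Complex.I :=
      (c1.const_smul Complex.I).sub c2
    exact (Complex.continuous_re.comp c3).congr hdiv
  have hpos : ∀ z, fderiv ℝ u z 1 ≠ 0 → 0 < f z := fun z hz => by
    rw [hf]
    show 0 < (σ (u z) ![fderiv ℝ u z 1, fderiv ℝ u z Complex.I]).re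
    rw [h.holomorphic]
    exact hJ.tame _ _ hz
  have hzero : ∀ z, fderiv ℝ u z 1 = 0 → f z = 0 := fun z hz => by
    rw [hf]
    show (σ (u z) ![fderiv ℝ u z 1, fderiv ℝ u z Complex.I]).re = 0
    rw [hz, map_zero_left]
    simp
  have h0 : ∀ z, 0 ≤ f z := fun z => by
    by_cases hz : fderiv ℝ u z 1 = 0
    · rw [hzero z hz]
    · exact (hpos z hz).le
  have hbd : ∀ z, 1 ≤ ‖z‖ → ‖fld L u z‖ ≤ (2 * (B * C)) / ‖z‖ ^ 2 := by
    intro z hz
    have key : ∀ c : ℂ, ‖c‖ = 1 → ‖((lin L (u z) (fderiv ℝ u z c)).re : ℂ)‖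
        ≤ B * (C / ‖z‖ ^ 2) := by
      intro c hc
      rw [Complex.norm_real]
      refine (Complex.abs_re_le_norm _).trans ?_
      refine ((lin L (u z)).le_opNorm _).trans ?_
      refine mul_le_mul (hB' z) ?_ (norm_nonneg _) hB0
      refine ((fderiv ℝ u z).le_opNorm _).trans ?_
      rw [hc, mul_one]
      exact hC z hz
    have k1 := key 1 norm_one
    have k2 := key Complex.I Complex.norm_I
    have := norm_sub_le ((lin L (u z) (fderiv ℝ u z 1)).re : ℂ)
      (Complex.I * ((lin L (u z) (fderiv ℝ u z Complex.I)).re : ℂ))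
    rw [norm_mul, Complex.norm_I, one_mul] at this
    refine this.trans ?_
    have e : 2 * (B * C) / ‖z‖ ^ 2 = B * (C / ‖z‖ ^ 2) + B * (C / ‖z‖ ^ 2) := by ring
    rw [e]
    exact add_le_add k1 k2
  have hf0 : ∀ z, f z = 0 := energy_zero hfc h0 hF1 hdiv hbd
  have hd1 : ∀ z, fderiv ℝ u z 1 = 0 := fun z => by
    by_contra hne
    exact (hpos z hne).ne' (hf0 z)
  have hdI : ∀ z, fderiv ℝ u z Complex.I = 0 := fun z => by
    rw [h.holomorphic, hd1, map_zero]
  have hd : ∀ z, fderiv ℝ u z = 0 := fun z => by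
    ext1 w
    have e : w = w.re • (1 : ℂ) + w.im • Complex.I := by
      apply Complex.ext <;> simp
    rw [e, map_add, map_smul, map_smul, hd1, hdI]
    simp
  intro z
  exact is_const_of_fderiv_eq_zero (h.smooth.differentiable (by simp)) hd z 0

end Pool.Agent.H87.GWNil
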